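import Pool.Agent.Q284.GE.Stm

/-!
# Job GE-TGT (helper96, for project GE of helper284): factorisation and Newton identities
-/

set_option autoImplicit false

namespace Pool.Agent.Q96.GE

open Finset Polynomial
open Pool.Agent.Q284.GE

theorem factor (D : ℕ) : ∀ b : ℂ[X], b.natDegree = D → b.coeff 0 = 1 →
    (∀ z : ℂ, b.eval z = 0 → ‖z‖ = 1) →
    ∃ ζ : Fin D → ℂ, (∀ j, ‖ζ j‖ = 1) ∧ b = ∏ j, (1 - C (ζ j) * X) := by
  induction D with
  | zero =>
    intro b hb h0 _
    refine ⟨Fin.elim0, fun j => j.elim0, ?_⟩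
    rw [eq_C_of_natDegree_eq_zero hb, h0]
    simp
  | succ D ih =>
    intro b hb h0 hroot
    have hdeg : b.degree ≠ 0 := by
      intro h
      have := natDegree_eq_zero_iff_degree_le_zero.mpr h.le
      omega
    obtain ⟨a, ha⟩ := IsAlgClosed.exists_root b hdeg
    have ha1 : ‖a‖ = 1 := hroot a ha
    have ha0 : a ≠ 0 := by
      rintro rfl
      rw [norm_zero] at ha1
      exact zero_ne_one ha1
    obtain ⟨c, hc⟩ := dvd_iff_isRoot.mpr ha
    have hc2 : b = (1 - C a⁻¹ * X) * (C (-a) * c) := by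
      rw [hc]
      have : (1 - C a⁻¹ * X) * C (-a) = X - C a := by
        have h1 : C a⁻¹ * C a = (1 : ℂ[X]) := by rw [← C_mul, inv_mul_cancel₀ ha0, C_1]
        rw [C_neg]
        linear_combination X * h1
      rw [← mul_assoc, this]
    set c' := C (-a) * c with hc'
    have hc0 : c' ≠ 0 := by
      intro h
      rw [h, mul_zero] at hc2
      rw [hc2, coeff_zero] at h0
      exact zero_ne_one h0
    have hl0 : (1 - C a⁻¹ * X : ℂ[X]) ≠ 0 := by
      intro h
      rw [h, zero_mul] at hc2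
      rw [hc2, coeff_zero] at h0
      exact zero_ne_one h0
    have hl1 : (1 - C a⁻¹ * X : ℂ[X]).natDegree = 1 := by
      have h1 : (1 - C a⁻¹ * X : ℂ[X]) = C (-a⁻¹) * X + C 1 := by
        rw [C_neg, C_1]
        ring
      rw [h1]
      exact natDegree_linear (neg_ne_zero.mpr (inv_ne_zero ha0))
    have hdc : c'.natDegree = D := by
      have h1 := natDegree_mul hl0 hc0
      rw [← hc2, hb, hl1] at h1
      omega
    have hcc : c'.coeff 0 = 1 := by
      have h1 : b.coeff 0 = (1 - C a⁻¹ * X : ℂ[X]).coeff 0 * c'.coeff 0 := by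
        rw [hc2]
        exact mul_coeff_zero _ _
      rw [h0] at h1
      simpa using h1.symm
    obtain ⟨ζ, hζ1, hζ2⟩ := ih c' hdc hcc (by
      intro z hz
      apply hroot
      rw [hc2, eval_mul, hz, mul_zero])
    refine ⟨Fin.cons a⁻¹ ζ, ?_, ?_⟩
    · intro j
      refine Fin.cases ?_ ?_ j
      · rw [Fin.cons_zero, norm_inv, ha1, inv_one]
      · intro i
        rw [Fin.cons_succ]
        exact hζ1 i
    · rw [Fin.prod_univ_succ, Fin.cons_zero]
      simp only [Fin.cons_succ]
      rw [← hζ2]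
      exact hc2

/-- the generating series of the numbers `s m`, `m ≥ 1` -/
noncomputable def ser (s : ℕ → ℂ) : PowerSeries ℂ := PowerSeries.mk fun m => if m = 0 then 0 else s m

theorem geo (z : ℂ) : ser (fun m => z ^ m) * (1 - PowerSeries.C z * PowerSeries.X) =
    PowerSeries.C z * PowerSeries.X := by
  ext n
  rw [mul_sub, mul_one, map_sub]
  have h1 : ser (fun m => z ^ m) * (PowerSeries.C z * PowerSeries.X) =
      PowerSeries.C z * (ser (fun m => z ^ m) * PowerSeries.X) := by ring
  rw [h1, PowerSeries.coeff_C_mul, PowerSeries.coeff_C_mul]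
  rcases n with _ | _ | n
  · simp [ser]
  · rw [PowerSeries.coeff_succ_mul_X, PowerSeries.coeff_X]
    simp [ser]
  · rw [PowerSeries.coeff_succ_mul_X, PowerSeries.coeff_X]
    simp only [ser, PowerSeries.coeff_mk]
    simp
    ring

theorem newt_series (D : ℕ) (ζ : Fin D → ℂ) :
    PowerSeries.X * PowerSeries.derivative ℂ ((∏ j, (1 - C (ζ j) * X) : ℂ[X]) : PowerSeries ℂ) =
      ser (fun m => - ∑ j, ζ j ^ m) * ((∏ j, (1 - C (ζ j) * X) : ℂ[X]) : PowerSeries ℂ) := by
  induction D with
  | zero =>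
    have h1 : ser (fun m => - ∑ j : Fin 0, ζ j ^ m) = 0 := by
      ext n
      simp [ser]
    rw [h1, zero_mul]
    simp
  | succ D ih =>
    have h1 := ih (fun j => ζ j.succ)
    rw [Fin.prod_univ_succ]
    set c : ℂ[X] := ∏ j : Fin D, (1 - C (ζ j.succ) * X) with hc
    have h2 : ser (fun m => - ∑ j, ζ j ^ m) =
        ser (fun m => - ∑ j : Fin D, ζ j.succ ^ m) - ser (fun m => ζ 0 ^ m) := by
      ext n
      simp only [ser, PowerSeries.coeff_mk, map_sub]
      split_ifs with hn
      · ring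
      · rw [Fin.sum_univ_succ]
        ring
    have h3 : ((((1 - C (ζ 0) * X) * c : ℂ[X])) : PowerSeries ℂ) =
        (1 - PowerSeries.C (ζ 0) * PowerSeries.X) * (c : PowerSeries ℂ) := by
      rw [Polynomial.coe_mul, Polynomial.coe_sub, Polynomial.coe_mul, Polynomial.coe_one,
        Polynomial.coe_C, Polynomial.coe_X]
    rw [h3, h2, Derivation.leibniz]
    have h4 : PowerSeries.derivative ℂ (1 - PowerSeries.C (ζ 0) * PowerSeries.X) =
        - PowerSeries.C (ζ 0) := by
      rw [map_sub, PowerSeries.derivative_one, Derivation.leibniz, PowerSeries.derivative_C,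
        PowerSeries.derivative_X]
      simp
    rw [h4]
    simp only [smul_eq_mul]
    have h5 := geo (ζ 0)
    linear_combination (1 - PowerSeries.C (ζ 0) * PowerSeries.X) * h1 + (c : PowerSeries ℂ) * h5

theorem t_TGT : Pool.Agent.Q284.GE.S_TGT := by
  intro D ε b hb
  obtain ⟨ζ, hζ1, hζ2⟩ := factor D b hb.deg hb.zero hb.root
  refine ⟨⟨ζ, hζ1, hζ2⟩, fun m => - ∑ j, ζ j ^ m, ?_, ?_⟩
  · intro m _
    rw [norm_neg]
    calc ‖∑ j, ζ j ^ m‖ ≤ ∑ j : Fin D, ‖ζ j ^ m‖ := norm_sum_le _ _
      _ = ∑ j : Fin D, (1 : ℝ) := by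
        refine Finset.sum_congr rfl fun j _ => ?_
        rw [norm_pow, hζ1, one_pow]
      _ = D := by simp
  · intro N n hn _
    have h1 := newt_series D ζ
    rw [← hζ2] at h1
    have h2 := congrArg (PowerSeries.coeff n) h1
    obtain ⟨k, rfl⟩ : ∃ k, n = k + 1 := ⟨n - 1, by omega⟩
    rw [mul_comm PowerSeries.X, PowerSeries.coeff_succ_mul_X, PowerSeries.coeff_derivative,
      Polynomial.coeff_coe, PowerSeries.coeff_mul] at h2
    have h3 : ∑ p ∈ antidiagonal (k + 1), (PowerSeries.coeff p.1) (ser (fun m => - ∑ j, ζ j ^ m)) *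
        (PowerSeries.coeff p.2) (b : PowerSeries ℂ) =
        ∑ m ∈ Icc 1 (k + 1), (- ∑ j, ζ j ^ m) * b.coeff (k + 1 - m) := by
      have hI : Icc 1 (k + 1) = Ico 1 (k + 2) := by
        ext x
        simp only [mem_Icc, mem_Ico]
        omega
      rw [Finset.Nat.sum_antidiagonal_eq_sum_range_succ_mk, Finset.sum_range_succ', hI,
        Finset.sum_Ico_eq_sum_range]
      have h0 : (PowerSeries.coeff 0) (ser (fun m => - ∑ j, ζ j ^ m)) = 0 := by
        simp [ser]
      rw [h0, zero_mul, add_zero]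
      refine Finset.sum_congr (by simp) fun i _ => ?_
      rw [Polynomial.coeff_coe, add_comm 1 i]
      simp [ser]
    rw [h3] at h2
    rw [← h2]
    push_cast
    ring

end Pool.Agent.Q96.GE
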