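import Pool.Agent.Q284.GE.Stm
import Pool.Agent.Q284.PS.Stm2

/-!
# Job GE-CN2 (helper96, for project GE of helper284): the number of the characters
-/

set_option autoImplicit false

namespace Pool.Agent.Q96.GE

open Finset Polynomial
open Pool.Agent.Q284.PS (Prim qq)

theorem t_CN2 (hCNT : Pool.Agent.Q284.PS.S_CNT) : Pool.Agent.Q284.GE.S_CN2 := by
  intro F _ _ ν M j hν hM
  set N : ℕ := 2 * j / ν + 1 with hN
  obtain ⟨hfin, hcard⟩ := hCNT F (M - 1) N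
  set S := {p : F[X] × ℕ × (F[X] → ℂ) | Prim p.1 p.2.1 p.2.2 ∧ p.1.natDegree + max (M - 1) p.2.1 ≤ N}
    with hS
  have hsub : {χ : F[X] → ℂ | ∃ (Q : F[X]) (l : ℕ), Prim Q l χ ∧
      ν * (Q.natDegree + max M (l + 1) - 2) ≤ 2 * j} ⊆ (fun p : F[X] × ℕ × (F[X] → ℂ) => p.2.2) '' S := by
    rintro χ ⟨Q, l, hp, hle⟩
    refine ⟨(Q, l, χ), ⟨hp, ?_⟩, rfl⟩
    have h1 : Q.natDegree + max M (l + 1) - 2 ≤ 2 * j / ν := by
      rw [Nat.le_div_iff_mul_le (by omega), mul_comm]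
      exact hle
    change Q.natDegree + max (M - 1) l ≤ N
    rw [hN]
    generalize 2 * j / ν = K at *
    rcases le_total M (l + 1) with h | h
    · rw [max_eq_right h] at h1
      rw [max_eq_right (by omega : M - 1 ≤ l)]
      omega
    · rw [max_eq_left h] at h1
      rw [max_eq_left (by omega : l ≤ M - 1)]
      omega
  have hfin2 := hfin.image (fun p : F[X] × ℕ × (F[X] → ℂ) => p.2.2)
  refine ⟨hfin2.subset hsub, ?_⟩
  have h1 : ({χ : F[X] → ℂ | ∃ (Q : F[X]) (l : ℕ), Prim Q l χ ∧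
      ν * (Q.natDegree + max M (l + 1) - 2) ≤ 2 * j}.ncard : ℝ) ≤ (S.ncard : ℝ) := by
    exact_mod_cast (Set.ncard_le_ncard hsub hfin2).trans (Set.ncard_image_le hfin)
  refine h1.trans ?_
  have hq : (1 : ℝ) ≤ qq F := by
    unfold qq
    exact_mod_cast Fintype.card_pos
  have hq0 : (0 : ℝ) < qq F := lt_of_lt_of_le one_pos hq
  have h2 : (S.ncard : ℝ) ≤ 4 * qq F ^ (2 * N) / qq F ^ (M - 1) := by
    rw [le_div_iff₀ (pow_pos hq0 _)]
    exact hcard
  refine h2.trans ?_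
  rw [mul_div_assoc]
  apply mul_le_mul_of_nonneg_left _ (by norm_num)
  rw [← Real.rpow_natCast, ← Real.rpow_natCast, ← Real.rpow_sub hq0]
  apply Real.rpow_le_rpow_of_exponent_le hq
  have h3 : ((2 * j / ν : ℕ) : ℝ) ≤ ((2 * j : ℕ) : ℝ) / ν := Nat.cast_div_le
  rw [hN, Nat.cast_mul, Nat.cast_add, Nat.cast_sub (by omega : 1 ≤ M)]
  push_cast at h3 ⊢
  have h4 : 4 * (j : ℝ) / ν = 2 * (2 * j / ν) := by ring
  rw [h4]
  linarith

end Pool.Agent.Q96.GE
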